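import Pool.Agent.N625.DY.F
import Pool.Agent.N625.DY.J

/-!
# Level of distribution `1 - ε` for almost all residues given by words of a context-free language

Method: exponential sums over the correctly nested words by a stack machine, a harmonic function of the stack and a
cancellation between the two ways to return to a stack in two steps; ballot numbers. The passage from such exponential
sums to primes in residue classes is from the starting files (`Pool.Agent.TH872.Mir.lv_law`).

From Mathlib: `ArithmeticFunction.vonMangoldt`: the function `Λ`; `Nat.totient`: Euler's function.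
-/

set_option autoImplicit false

namespace Pool.Agent.Results.MP_00e23e_nt.BracketResidues

open Finset

/-- `P` is a set of pairs of an opening digit and a closing digit which match each other, `E` is a set of neutral
digits; the digits are smaller than `b`, no digit plays two of the three roles, and there is at least one pair.
(An opening digit can match several closing digits, and conversely.) -/
structure Alphabet (b : ℕ) (P : Finset (ℕ × ℕ)) (E : Finset ℕ) : Prop where
  lt : ∀ p ∈ P, p.1 < b ∧ p.2 < b
  ne : ∀ p ∈ P, ∀ p' ∈ P, p.1 ≠ p'.2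
  neutral : ∀ a ∈ E, a < b ∧ ∀ p ∈ P, a ≠ p.1 ∧ a ≠ p.2
  nonempty : P.Nonempty

/-- The correctly nested words: the empty word; a neutral digit followed by a correctly nested word; and `o u c w`,
where `u` and `w` are correctly nested words and the opening digit `o` matches the closing digit `c`. -/
inductive Balanced (P : Finset (ℕ × ℕ)) (E : Finset ℕ) : List ℕ → Prop
  | nil : Balanced P E []
  | neutral (a : ℕ) (w : List ℕ) : a ∈ E → Balanced P E w → Balanced P E (a :: w)
  | pair (o c : ℕ) (u w : List ℕ) : (o, c) ∈ P → Balanced P E u → Balanced P E w → Balanced P E (o :: (u ++ c :: w))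

open Classical in
/-- The integers `v < b ^ k` whose `k` digits in base `b`, from the most significant to the least significant one (the
digit number `i`, `0 ≤ i < k`, from the left is `v / b ^ (k - 1 - i) % b`), form a correctly nested word. -/
noncomputable def brackets (b : ℕ) (P : Finset (ℕ × ℕ)) (E : Finset ℕ) (k : ℕ) : Finset ℕ :=
  (range (b ^ k)).filter fun v => Balanced P E ((List.range k).map fun i => v / b ^ (k - 1 - i) % b)

/-- `ψ(x; q, a)`: the sum of `Λ(n)` over the `n ≤ x` with `n ≡ a (mod q)`. -/
noncomputable def psi (x q a : ℕ) : ℝ :=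
  ∑ n ∈ (Icc 1 x).filter (fun n => n ≡ a [MOD q]), ArithmeticFunction.vonMangoldt n

/-- The sum of `λ(q) (ψ(x; q, a) - x / φ(q))` over the `q ≤ Q` coprime to `a`. -/
noncomputable def weighted (lam : ℕ → ℝ) (Q x a : ℕ) : ℝ :=
  ∑ q ∈ (Icc 1 Q).filter (fun q => a.Coprime q), lam q * (psi x q a - (x : ℝ) / Nat.totient q)

/-- The primes have the level of distribution `1 - ε` in the residue classes of `a`, with the weights `λ(q)`
and up to `B N`: the sum of `λ(q) (ψ(x; q, a) - x / φ(q))` over the `q ≤ N ^ (1 - ε)` coprime to `a` has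
absolute value at most `N / k ^ U` for all `x ≤ B N`, where `N = b ^ k`. -/
def Level (b B U k : ℕ) (ε : ℝ) (lam : ℕ → ℝ) (a : ℕ) : Prop :=
  ∀ x ≤ B * b ^ k, |weighted lam ⌊((b ^ k : ℕ) : ℝ) ^ (1 - ε)⌋₊ x a| ≤ ((b ^ k : ℕ) : ℝ) / (k : ℝ) ^ U

lemma bal_iff (P : Finset (ℕ × ℕ)) (E : Finset ℕ) (w : List ℕ) : Balanced P E w ↔ Pool.Agent.N625.DY.Balanced P E w := by
  constructor
  · intro h
    induction h with
    | nil => exact .nil
    | neutral a w h1 _ ih => exact .neutral a w h1 ih
    | pair o c u w h1 _ _ ih1 ih2 => exact .pair o c u w h1 ih1 ih2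
  · intro h
    induction h with
    | nil => exact .nil
    | neutral a w h1 _ ih => exact .neutral a w h1 ih
    | pair o c u w h1 _ _ ih1 ih2 => exact .pair o c u w h1 ih1 ih2

lemma brackets_eq (b : ℕ) (P : Finset (ℕ × ℕ)) (E : Finset ℕ) (k : ℕ) :
    brackets b P E k = Pool.Agent.N625.DY.brackets b P E k := by
  classical
  unfold brackets Pool.Agent.N625.DY.brackets Pool.Agent.N625.DY.word
  ext v
  rw [mem_filter, mem_filter, bal_iff]

open Classical in
/-- Let the matching pairs `P` of digits and the neutral digits `E` in base `b`, and `κ ≠ 0`, `B`, `T`, `U` and `ε > 0` be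
fixed, let `k` be large and `N = b ^ k`, let `c` be an arbitrary integer with `|c| ≤ B N`, and let `λ(q)` be arbitrary
coefficients with `|λ(q)| ≤ k ^ T`. Then all the integers `v` whose `k` digits form a correctly nested word, with the
exception of a proportion of at most `1 / k ^ U` of them, have the following property: if `a = c + κ v` is positive, then
the sum of `λ(q) (ψ(x; q, a) - x / φ(q))` over the `q ≤ N ^ (1 - ε)` coprime to `a` has absolute value at most `N / k ^ U`
for all `x ≤ B N`. -/
theorem result (b : ℕ) (P : Finset (ℕ × ℕ)) (E : Finset ℕ) (hA : Alphabet b P E) (κ : ℤ) (hκ : κ ≠ 0) (B T U : ℕ)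
    (ε : ℝ) (hε : 0 < ε) :
    ∃ k₀ : ℕ, ∀ k : ℕ, k₀ ≤ k → ∀ c : ℤ, |c| ≤ B * (b : ℤ) ^ k → ∀ lam : ℕ → ℝ, (∀ q, |lam q| ≤ (k : ℝ) ^ T) →
      (((brackets b P E k).filter fun v => ¬ (0 < c + κ * (v : ℕ) → Level b B U k ε lam (c + κ * (v : ℕ)).toNat)).card : ℝ) ≤
        (brackets b P E k).card / (k : ℝ) ^ U := by
  have hA' : Pool.Agent.N625.DY.Alphabet b P E := ⟨hA.lt, hA.ne, hA.neutral, hA.nonempty⟩
  obtain ⟨k₀, h0⟩ := Pool.Agent.N625.DY.cls_level (Pool.Agent.N625.DY.br_cls hA' κ hκ) B T U ε hε
  refine ⟨k₀, fun k hk c hc lam hlam => ?_⟩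
  have h1 := Pool.Agent.N625.DY.br_count k (fun v => 0 < c + κ * (v : ℕ) → Level b B U k ε lam (c + κ * (v : ℕ)).toNat)
    (1 / (k : ℝ) ^ U) hA' (fun p hp => by
      refine le_trans (le_of_eq ?_) (h0 k hk p hp c hc lam hlam)
      apply sum_congr rfl
      intro v _
      congr)
  rw [mul_one_div] at h1
  simp only [brackets_eq]
  refine le_trans (le_of_eq ?_) h1
  congr!

end Pool.Agent.Results.MP_00e23e_nt.BracketResidues
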