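import Pool.Agent.N666.PS.Residues

/-!
# Level of distribution `N exp (-K (log log N) ^ 2)` for all the residues near almost all values of a generalised
polynomial

Let `f (t) = ∑ a_x t ^ x` be a finite sum of real powers of `t` (with arbitrary real exponents) whose largest exponent
`c > 1` is not an integer and has a positive coefficient, for instance `f (t) = t ^ c` (the values of Piatetski-Shapiro).
For almost all `m ≤ X`, where `X ^ c` is about `N`, ALL the residues `b > 0` at a distance of at most `log ^ W N` from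
`t + f (m)` have the level of distribution `N exp (-K (log log N) ^ 2)` for arbitrary given weights, simultaneously
for all `y ≤ B N`; the translation `t` is arbitrary.

From Mathlib: `ArithmeticFunction.vonMangoldt`: the function `Λ`; `Nat.totient`: Euler's function.
-/

set_option autoImplicit false

namespace Pool.Agent.Results.MP_00e23e_nt.PiatetskiShapiroResidues

open Finset

open Classical in
/-- The number of the `m` in `{1, ..., x}` with the property `E`. -/
noncomputable def num (x : ℕ) (E : ℕ → Prop) : ℝ := (((Icc 1 x).filter E).card : ℝ)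

/-- `ψ(y; q, b)`: the sum of `Λ(n)` over the `n ≤ y` with `n ≡ b (mod q)`. -/
noncomputable def psi (y q b : ℕ) : ℝ :=
  ∑ n ∈ (Icc 1 y).filter (fun n => n ≡ b [MOD q]), ArithmeticFunction.vonMangoldt n

/-- The sum of `λ(q) (ψ(y; q, b) - y / φ(q))` over the `q ≤ Q` coprime to `b`. -/
noncomputable def weighted (lam : ℕ → ℝ) (Q y b : ℕ) : ℝ :=
  ∑ q ∈ (Icc 1 Q).filter (fun q => b.Coprime q), lam q * (psi y q b - (y : ℝ) / Nat.totient q)

/-- The level `N exp (-K (log log N) ^ 2)`, rounded down. -/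
noncomputable def level (K N : ℕ) : ℕ := ⌊(N : ℝ) * Real.exp (-(K * Real.log (Real.log N) ^ 2))⌋₊

/-- The generalised polynomial with the exponents `x ∈ F` and the coefficients `a x`. -/
noncomputable def f (F : Finset ℝ) (a : ℝ → ℝ) (t : ℝ) : ℝ := ∑ x ∈ F, a x * t ^ x

open Classical in
lemma num_le (x : ℕ) (E : ℕ → Prop) (V : ℝ) (h : ∀ S : Finset ℕ, S ⊆ Icc 1 x → (∀ m ∈ S, E m) → (S.card : ℝ) ≤ V) :
    num x E ≤ V := by
  unfold num
  exact h _ (filter_subset _ _) (fun m hm => (mem_filter.mp hm).2)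

lemma general (p B C T U : ℕ) : ∃ K N₀ : ℕ, ∀ N : ℕ, N₀ ≤ N →
    ∀ (x : ℕ) (s : ℕ → ℤ), (∀ m ∈ Icc 1 x, |s m| ≤ B * N) →
    (((((Fintype.piFinset fun _ : Fin p => Icc 1 x) ×ˢ (Fintype.piFinset fun _ : Fin p => Icc 1 x)).filter
      (fun q => ∑ i, s (q.1 i) = ∑ i, s (q.2 i))).card : ℕ) : ℝ) * N ≤ Real.log N ^ C * (x : ℝ) ^ (2 * p) →
    ∀ L : ℕ, (L : ℝ) ≤ Real.log N ^ T → ∀ lam : Fin L → ℕ → ℝ, (∀ l q, |lam l q| ≤ Real.log N ^ T) →
    ∀ S : Finset ℕ, S ⊆ Icc 1 x → (∀ m ∈ S, 0 < s m ∧ ∃ l, ∃ y ≤ B * N,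
        N / Real.log N ^ U < |weighted (lam l) (level K N) y (s m).toNat|) → (S.card : ℝ) ≤ x / Real.log N ^ U := by
  classical
  obtain ⟨K, N₀, h0⟩ := Pool.Agent.TH646.LV.lv_fam p B C T (T + U)
  refine ⟨K, N₀ + 3, fun N hN x s hs hE L hL lam hlam S hSx hS => ?_⟩
  have hlog1 : 1 ≤ Real.log N := by
    rw [Real.le_log_iff_exp_le (by exact_mod_cast (by omega : 0 < N))]
    have : (3 : ℝ) ≤ N := by exact_mod_cast (by omega : 3 ≤ N)
    linarith [Real.exp_one_lt_d9]
  have hlog0 : 0 < Real.log N := by linarith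
  have h1 : ∀ l : Fin L, ((S.filter (fun m => ∃ y ≤ B * N,
      N / Real.log N ^ U < |weighted (lam l) (level K N) y (s m).toNat|)).card : ℝ) ≤ x / Real.log N ^ (T + U) := by
    intro l
    refine h0 N (by omega) x s hs hE (lam l) (hlam l) (level K N) (Nat.floor_le (by positivity))
      _ ((filter_subset _ _).trans hSx) ?_
    intro m hm
    obtain ⟨hm1, y, hy, h4⟩ := mem_filter.1 hm
    refine ⟨(hS m hm1).1, y, hy, lt_of_le_of_lt ?_ h4⟩
    apply div_le_div_of_nonneg_left (Nat.cast_nonneg _) (by positivity)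
    exact pow_le_pow_right₀ hlog1 (by omega)
  have hsub : S ⊆ (univ : Finset (Fin L)).biUnion (fun l => S.filter (fun m => ∃ y ≤ B * N,
      N / Real.log N ^ U < |weighted (lam l) (level K N) y (s m).toNat|)) := by
    intro m hm
    obtain ⟨_, l, hl⟩ := hS m hm
    rw [mem_biUnion]
    exact ⟨l, mem_univ _, mem_filter.mpr ⟨hm, hl⟩⟩
  have h2 : (S.card : ℝ) ≤ ∑ l : Fin L, ((S.filter (fun m => ∃ y ≤ B * N,
      N / Real.log N ^ U < |weighted (lam l) (level K N) y (s m).toNat|)).card : ℝ) := by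
    exact_mod_cast (card_le_card hsub).trans card_biUnion_le
  calc (S.card : ℝ) ≤ ∑ _l : Fin L, (x : ℝ) / Real.log N ^ (T + U) := h2.trans (sum_le_sum fun l _ => h1 l)
    _ = L * (x / Real.log N ^ (T + U)) := by
        rw [sum_const, card_univ, Fintype.card_fin, nsmul_eq_mul]
    _ ≤ Real.log N ^ T * (x / Real.log N ^ (T + U)) := mul_le_mul_of_nonneg_right hL (by positivity)
    _ = x / Real.log N ^ U := by
        rw [pow_add]
        field_simp

/-- Let `f (t) = ∑ x ∈ F, a x * t ^ x`, where `F` is a finite set of real exponents whose largest element `c` is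
larger than `1` and not an integer, and where `a c > 0`. Let `B`, `C`, `T`, `U`, `W` be fixed. There is a `K` such
that for all large `N` the following holds. Let `N / log ^ C N ≤ X ^ c ≤ B N`, let `|t| ≤ B N`, and let the systems of
coefficients `λ_l(q)`, where `l` ranges over at most `log ^ T N` indices, be arbitrary with `|λ_l(q)| ≤ log ^ T N`.
Then, for all the `m ≤ X` with at most `X / log ^ U N` exceptions: for ALL the integers `b > 0` at a distance of at most
`log ^ W N` from `t + f (m)`, the sum of `λ_l(q) (ψ(y; q, b) - y / φ(q))` over the `q ≤ N exp (-K (log log N) ^ 2)`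
coprime to `b` has absolute value at most `N / log ^ U N`, for all `l` and all `y ≤ B N`. -/
theorem result (F : Finset ℝ) (a : ℝ → ℝ) (c : ℝ) (hcF : c ∈ F) (hmax : ∀ x ∈ F, x ≤ c) (hac : 0 < a c)
    (hc : 1 < c) (hcn : ∀ k : ℕ, c ≠ k) (B C T U W : ℕ) :
    ∃ K N₀ : ℕ, ∀ N : ℕ, N₀ ≤ N → ∀ X : ℕ, (X : ℝ) ^ c ≤ B * N → (N : ℝ) ≤ Real.log N ^ C * (X : ℝ) ^ c →
      ∀ t : ℤ, |t| ≤ B * N →
      ∀ L : ℕ, (L : ℝ) ≤ Real.log N ^ T → ∀ lam : Fin L → ℕ → ℝ, (∀ l q, |lam l q| ≤ Real.log N ^ T) →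
        num X (fun m => ¬ ∀ b : ℕ, 0 < b → |(b : ℝ) - t - f F a m| ≤ Real.log N ^ W →
          ∀ l, ∀ y ≤ B * N, |weighted (lam l) (level K N) y b| ≤ N / Real.log N ^ U) ≤ X / Real.log N ^ U := by
  classical
  obtain ⟨r, _, h1⟩ := Pool.Agent.N666.PS.near_gen (F := F) (a := a) (c := c) ⟨hcF, hmax, hac, hc, hcn⟩
  obtain ⟨B', C', U', N₁, h2⟩ := h1 B C W U
  obtain ⟨K, N₂, h3⟩ := general r (B' + B) C' T (U' + U)
  refine ⟨K, N₁ + N₂ + 3, fun N hN X hX1 hX2 t ht L hL lam hlam => ?_⟩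
  have hlog1 : 1 ≤ Real.log N := by
    rw [Real.le_log_iff_exp_le (by exact_mod_cast (by omega : 0 < N))]
    have : (3 : ℝ) ≤ N := by exact_mod_cast (by omega : 3 ≤ N)
    linarith [Real.exp_one_lt_d9]
  have hlog0 : 0 < Real.log N := by linarith
  apply num_le
  intro S₀ hS₀ hE₀
  refine h2 N (by omega) (fun b => 0 < b ∧ ∃ l, ∃ y ≤ B * N,
    N / Real.log N ^ U < |weighted (lam l) (level K N) y b.toNat|) ?_ X hX1 hX2 t ht S₀ hS₀ ?_
  · intro x s hs hE S hSx hS
    refine (h3 N (by omega) x s (fun m hm => (hs m hm).trans ?_) hE L hL lam hlam S hSx ?_).trans ?_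
    · have : (0 : ℤ) ≤ (B : ℤ) * N := by positivity
      push_cast
      nlinarith
    · intro m hm
      obtain ⟨g1, l, y, g2, g3⟩ := hS m hm
      refine ⟨g1, l, y, g2.trans ?_, lt_of_le_of_lt ?_ g3⟩
      · exact Nat.mul_le_mul_right N (by omega)
      · apply div_le_div_of_nonneg_left (Nat.cast_nonneg _) (by positivity)
        exact pow_le_pow_right₀ hlog1 (by omega)
    · apply div_le_div_of_nonneg_left (Nat.cast_nonneg _) (by positivity)
      exact pow_le_pow_right₀ hlog1 (by omega)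
  · intro m hm
    have hm2 := hE₀ m hm
    push Not at hm2
    obtain ⟨b, g1, g2, l, y, g3, g4⟩ := hm2
    refine ⟨b, ?_, by exact_mod_cast g1, l, y, g3, by rw [Int.toNat_natCast]; exact g4⟩
    rw [Pool.Agent.N666.PS.gp_zero]
    push_cast
    exact g2

end Pool.Agent.Results.MP_00e23e_nt.PiatetskiShapiroResidues
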