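import Pool.Agent.N422.EH.ALL

/-!
# No sieve in the modulus detects progressions without rough numbers

Author: helper422.  The primes `≡ a (mod n)` in `[1, n U]` with `U = (log n)^A` are those in the progression `a + h n`,
`h ≤ U`.  Friedlander and Granville, following Maier, found for every `A` moduli `n` for which their number deviates from the
expected one, by averaging over the `n` in a residue class: this shows that the exponent `1` is not admissible.  How irregular
can the distribution in progressions to moduli detected by sieves in `n` be?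

Here we prove a general limit: let `a ≥ 1` be fixed and let `w` be ANY real function of level `Q` of the modulus `n` (a sum of
functions with periods `d ≤ Q`; no condition on sign, size or shape).  If `U ≥ (log Q)^(2+ε)` and if `w(n) ≤ 0` for all `n` not
prime to `a` and for all `n` for which some `a + h n`, `1 ≤ h ≤ U`, is free of prime factors `≤ Q`, then the mean of `w` is
`≤ 0`.  So no lower bound sieve in the modulus detects progressions of length `(log Q)^(2+ε)` without rough numbers.

Proof.  One may assume that all moduli `d` are squarefree (`EH/SQF2`, helper767).  For `p` not dividing `a n` the condition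
`p ∣ a + h n` reads `h ≡ -a/n (mod p)`, so a bijection of `ℤ/p` for every `p ≤ Q` turns the progressions with `h ≡ 1 (mod a)`
into intervals; functions of level `Q` with squarefree `d` go to such functions (`EH/PERM`, helper263; `EH/BACK`, helper67;
`EH/EHC`, helper31).  The theorem for intervals is `MP_c853c5_nt.AllSievesForLongGaps`, `LR` (helpers 37, 451, 793, 545, 394,
935, 703, 910).
-/

set_option autoImplicit false

open Finset

namespace Pool.Agent.Results.MP_00e23e_nt.SievesInTheModulus

/-- the weight `w(n) = ∑_{d ≤ Q} c_d(n mod d)`, an arbitrary real weight of level `Q` -/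
noncomputable def weight (Q : ℕ) (c : ℕ → ℕ → ℝ) (n : ℕ) : ℝ := ∑ d ∈ Icc 1 Q, c d (n % d)

/-- the mean value of `F` over the period `Q!` -/
noncomputable def mean (Q : ℕ) (F : ℕ → ℝ) : ℝ := (∑ n ∈ range Q.factorial, F n) / (Q.factorial : ℝ)

/-- For every `ε > 0` and `a ≥ 1` there is `Q₀` such that for all `Q ≥ Q₀`, all `U ≥ (log Q)^(2+ε)` and every real weight `w`
of level `Q`: if `w(n) ≤ 0` for all `n` not prime to `a` and for all `n` for which some `a + h n`, `1 ≤ h ≤ U`, has no prime
factor `≤ Q`, then the mean of `w` is `≤ 0`. -/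
theorem result : ∀ ε : ℝ, 0 < ε → ∀ a : ℕ, 1 ≤ a → ∃ Q₀ : ℕ, ∀ Q : ℕ, Q₀ ≤ Q → ∀ U : ℕ, Real.log Q ^ (2 + ε) ≤ U →
    ∀ c : ℕ → ℕ → ℝ, (∀ n, ¬ Nat.Coprime n a → weight Q c n ≤ 0) →
      (∀ n, (∃ h, 1 ≤ h ∧ h ≤ U ∧ ∀ p, p.Prime → p ≤ Q → ¬ p ∣ a + h * n) → weight Q c n ≤ 0) →
      mean Q (weight Q c) ≤ 0 := by
  intro ε hε a ha
  obtain ⟨Q₀, h⟩ := Pool.Agent.N422.EH.ehc_all ε hε a ha
  refine ⟨Q₀, fun Q hQ U hU c hc0 hc => h Q hQ U hU c hc0 fun n hn => hc n ?_⟩
  obtain ⟨x, hx⟩ := hn
  unfold Pool.Agent.N422.EH.SE at hx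
  rw [mem_filter, mem_Icc] at hx
  refine ⟨x, hx.1.1, hx.1.2, fun p hp hpQ => hx.2 p ?_⟩
  rw [mem_filter, mem_Icc]
  exact ⟨⟨hp.one_lt.le, hpQ⟩, hp⟩

end Pool.Agent.Results.MP_00e23e_nt.SievesInTheModulus
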