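import Pool.Agent.N625.GW.D
import Pool.Agent.N625.DY.O

/-!
# Level of distribution `1 - ε` for all residues near almost all integers whose digits label walks in a graph

Method: the exponential sum over the walks is dominated by the iterates of the adjacency operator of the graph, whose
square is diminished on the diagonal at the places where the frequency has a digit which is not extremal; the norms of
these operators on the cyclic space of a vertex are controlled by the number of the closed walks. The passage from such
exponential sums to primes in residue classes is from the starting files (`Pool.Agent.TH872.Mir.lv_law`).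

From Mathlib: `ArithmeticFunction.vonMangoldt`: the function `Λ`; `Nat.totient`: Euler's function.
-/

set_option autoImplicit false

namespace Pool.Agent.Results.MP_00e23e_nt.WalkResidues

open Finset

/-- The digits `a < b` act on the set `X` of the vertices: an edge with the label `a` leads from `x` to `y` if
`δ x a = some y` (at most one edge with the label `a` starts at `x`). The number of the edges from `x` to `y` equals the
number of the edges from `y` to `x`, and at least two edges start at every vertex. The graph may be infinite. -/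
structure Graph {X : Type} (b : ℕ) (δ : X → ℕ → Option X) : Prop where
  symm : ∀ x y : X, {a : ℕ | a < b ∧ δ x a = some y}.ncard = {a : ℕ | a < b ∧ δ y a = some x}.ncard
  two : ∀ x : X, ∃ a a' : ℕ, a < a' ∧ a' < b ∧ (δ x a).isSome ∧ (δ x a').isSome

open Classical in
/-- The integers `v < b ^ k` whose `k` digits in base `b`, from the most significant to the least significant one (the
digit number `i`, `0 ≤ i < k`, from the left is `v / b ^ (k - 1 - i) % b`), are the labels of a walk from `x` to `y`. -/
noncomputable def walks {X : Type} (b : ℕ) (δ : X → ℕ → Option X) (k : ℕ) (x y : X) : Finset ℕ :=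
  (range (b ^ k)).filter fun v =>
    ((List.range k).map fun i => v / b ^ (k - 1 - i) % b).foldl (fun s a => s.bind fun z => δ z a) (some x) = some y

/-- `ψ(x; q, a)`: the sum of `Λ(n)` over the `n ≤ x` with `n ≡ a (mod q)`. -/
noncomputable def psi (x q a : ℕ) : ℝ :=
  ∑ n ∈ (Icc 1 x).filter (fun n => n ≡ a [MOD q]), ArithmeticFunction.vonMangoldt n

/-- The sum of `λ(q) (ψ(x; q, a) - x / φ(q))` over the `q ≤ Q` coprime to `a`. -/
noncomputable def weighted (lam : ℕ → ℝ) (Q x a : ℕ) : ℝ :=
  ∑ q ∈ (Icc 1 Q).filter (fun q => a.Coprime q), lam q * (psi x q a - (x : ℝ) / Nat.totient q)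

/-- The primes have the level of distribution `1 - ε` in the residue classes of `a`, with the weights `λ(q)`
and up to `B N`: the sum of `λ(q) (ψ(x; q, a) - x / φ(q))` over the `q ≤ N ^ (1 - ε)` coprime to `a` has
absolute value at most `N / k ^ U` for all `x ≤ B N`, where `N = b ^ k`. -/
def Level (b B U k : ℕ) (ε : ℝ) (lam : ℕ → ℝ) (a : ℕ) : Prop :=
  ∀ x ≤ B * b ^ k, |weighted lam ⌊((b ^ k : ℕ) : ℝ) ^ (1 - ε)⌋₊ x a| ≤ ((b ^ k : ℕ) : ℝ) / (k : ℝ) ^ U

open Classical in
/-- Let `δ` be a graph whose edges are labelled with the digits in base `b`, let `x` be a vertex, and let `ρ > 0` be such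
that there are at most `ρ ^ (2 n)` closed walks of the length `2 n` at `x`, for all `n`. Let `D`, `κ ≠ 0`, `B`, `T`, `W`, `U`
and `ε > 0` be fixed, let `k` be large and `N = b ^ k`, let `y` be a vertex such that the number of the walks of the length
`k` from `x` to `y` is at least `ρ ^ k / k ^ D`, let `c` be an arbitrary integer with `|c| ≤ B N`, and let `λ_l`, for at
most `k ^ T` indices `l`, be arbitrary systems of coefficients with `|λ_l(q)| ≤ k ^ T`. Then all the integers `v` whose `k`
digits are the labels of a walk from `x` to `y`, with the exception of a proportion of at most `1 / k ^ U` of them, have the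
following property: for all the positive integers `a` at a distance of at most `k ^ W` from `c + κ v` and for all `l`, the
sum of `λ_l(q) (ψ(x; q, a) - x / φ(q))` over the `q ≤ N ^ (1 - ε)` coprime to `a` has absolute value at most `N / k ^ U` for
all `x ≤ B N`.

(For a group of polynomial growth, a free group, or any group with the property of rapid decay, there are at least
`ρ ^ k / k ^ D` closed walks of every even length `k` in the Cayley graph, where `ρ` is its spectral radius.) -/
theorem result (b : ℕ) (X : Type) (δ : X → ℕ → Option X) (hG : Graph b δ) (x : X) (ρ : ℝ) (hρ : 0 < ρ)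
    (hR : ∀ n : ℕ, ((walks b δ (2 * n) x x).card : ℝ) ≤ ρ ^ (2 * n)) (D : ℕ) (κ : ℤ) (hκ : κ ≠ 0) (B T W U : ℕ)
    (ε : ℝ) (hε : 0 < ε) :
    ∃ k₀ : ℕ, ∀ k : ℕ, k₀ ≤ k → ∀ y : X, ρ ^ k / (k : ℝ) ^ D ≤ (walks b δ k x y).card → ∀ c : ℤ, |c| ≤ B * (b : ℤ) ^ k →
      ∀ L : ℕ, (L : ℝ) ≤ (k : ℝ) ^ T → ∀ lam : Fin L → ℕ → ℝ, (∀ l q, |lam l q| ≤ (k : ℝ) ^ T) →
      (((walks b δ k x y).filter fun v => ¬ ∀ a : ℤ, |a - (c + κ * (v : ℕ))| ≤ (k : ℤ) ^ W → 0 < a →
        ∀ l, Level b B U k ε (lam l) a.toNat).card : ℝ) ≤ (walks b δ k x y).card / (k : ℝ) ^ U := by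
  obtain ⟨k₀, h0⟩ := Pool.Agent.N625.DY.cls_level_near (Pool.Agent.N625.GW.w_cls (δ := δ) ⟨hG.symm, hG.two⟩ x ρ hρ hR D κ hκ)
    B T W U ε hε
  refine ⟨k₀ + 1, fun k hk y hy c hc L hL lam hlam => ?_⟩
  have hk1 : (0 : ℝ) < (k : ℝ) ^ D := by
    have : (0 : ℝ) < k := by exact_mod_cast (by omega : 0 < k)
    positivity
  have hy' : ρ ^ k ≤ (k : ℝ) ^ D * (walks b δ k x y).card := by
    rw [div_le_iff₀ hk1, mul_comm] at hy
    exact hy
  have h1 := Pool.Agent.N625.GW.w_count k x y ρ hρ D hy'
    (fun v => ∀ a : ℤ, |a - (c + κ * (v : ℕ))| ≤ (k : ℤ) ^ W → 0 < a → ∀ l, Level b B U k ε (lam l) a.toNat)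
    (1 / (k : ℝ) ^ U) (fun p hp => h0 k (by omega) p hp c hc L hL lam hlam)
  rw [mul_one_div] at h1
  exact h1

end Pool.Agent.Results.MP_00e23e_nt.WalkResidues
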